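import Mathlib

set_option autoImplicit false

namespace Pool.Agent.H.MP_056161_an

open Real Set Filter Topology Metric

noncomputable def N (t : ℝ) : ℝ := t + negMulLog t

lemma N_cont : Continuous N := by unfold N; fun_prop

lemma N_mono : MonotoneOn N (Icc 0 1) := by
  refine monotoneOn_of_deriv_nonneg (convex_Icc 0 1) N_cont.continuousOn (fun t ht => ?_)
    fun t ht => ?_
  all_goals rw [interior_Icc] at ht
  · exact ((hasDerivAt_id t).add (hasDerivAt_negMulLog ht.1.ne')).differentiableAt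
      |>.differentiableWithinAt
  · have : HasDerivAt N (1 + (-log t - 1)) t :=
      (hasDerivAt_id t).add (hasDerivAt_negMulLog ht.1.ne')
    rw [this.deriv]
    have := log_nonpos ht.1.le ht.2.le
    linarith

noncomputable def Y (t : ℝ) : ℝ := 2 * t + N (max 0 (min t 1))

lemma cl_mem (t : ℝ) : max 0 (min t 1) ∈ Icc (0 : ℝ) 1 :=
  ⟨le_max_left _ _, max_le zero_le_one (min_le_right _ _)⟩

lemma Y_cont : Continuous Y := by
  have := N_cont
  unfold Y; fun_prop

lemma Y_slope {s t : ℝ} (h : s ≤ t) : 2 * (t - s) ≤ Y t - Y s := by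
  have := N_mono (cl_mem s) (cl_mem t) (max_le_max_left 0 (min_le_min_right 1 h))
  unfold Y; linarith

lemma Y_sm : StrictMono Y := fun s t h => by have := Y_slope h.le; linarith

lemma Y_zero : Y 0 = 0 := by simp [Y, N]

lemma Y_of_ge {t : ℝ} (h : 1 ≤ t) : Y t = 2 * t + 1 := by simp [Y, N, min_eq_right h]

lemma Y_of_mem {t : ℝ} (h0 : 0 ≤ t) (h1 : t ≤ 1) : Y t = t * (3 - log t) := by
  simp only [Y, N, min_eq_left h1, max_eq_right h0, negMulLog]; ring

lemma Y_surj : Function.Surjective Y := by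
  refine Y_cont.surjective ?_ ?_
  · refine tendsto_atTop_mono' _ ?_ tendsto_id
    filter_upwards [eventually_ge_atTop 0] with t ht
    have := Y_slope ht
    rw [Y_zero] at this
    simp only [id]; linarith
  · refine tendsto_atBot_mono' _ ?_ tendsto_id
    filter_upwards [eventually_le_atBot 0] with t ht
    have := Y_slope ht
    rw [Y_zero] at this
    simp only [id]; linarith

lemma Y_conc : ConcaveOn ℝ (Ici 0) Y := by
  have h1 : ConcaveOn ℝ (Ici (0 : ℝ)) fun t => min t 1 :=
    (concaveOn_id (convex_Ici 0)).inf (concaveOn_const 1 (convex_Ici 0))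
  have h2 : (fun t : ℝ => min t 1) '' Ici 0 ⊆ Icc 0 1 := by
    rintro _ ⟨t, ht, rfl⟩
    exact ⟨le_min ht zero_le_one, min_le_right _ _⟩
  have h3 : (fun t : ℝ => min t 1) '' Ici 0 = Icc 0 1 :=
    h2.antisymm fun t ht => ⟨t, ht.1, min_eq_left ht.2⟩
  have h4 : ConcaveOn ℝ (Icc (0 : ℝ) 1) N :=
    (concaveOn_id (convex_Icc 0 1)).add
      (concaveOn_negMulLog.subset Icc_subset_Ici_self (convex_Icc 0 1))
  have h5 := ConcaveOn.comp (h3 ▸ h4) h1 (h3 ▸ N_mono)
  refine (((concaveOn_id (convex_Ici (0 : ℝ))).smul (c := 2) (by norm_num)).add h5).congr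
    fun t ht => ?_
  simp only [Y, Pi.add_apply, id, smul_eq_mul, Function.comp]
  rw [max_eq_right (le_min ht zero_le_one)]

noncomputable def T : ℝ → ℝ := (Y_sm.orderIsoOfSurjective Y Y_surj).symm

lemma Y_T (y : ℝ) : Y (T y) = y := Y_sm.orderIsoOfSurjective_self_symm_apply Y Y_surj y

lemma T_Y (t : ℝ) : T (Y t) = t := Y_sm.orderIsoOfSurjective_symm_apply_self Y Y_surj t

lemma T_lt {y t : ℝ} : T y < t ↔ y < Y t := by
  conv_rhs => rw [← Y_T y]
  exact Y_sm.lt_iff_lt.symm

lemma lt_T {y t : ℝ} : t < T y ↔ Y t < y := by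
  conv_rhs => rw [← Y_T y]
  exact Y_sm.lt_iff_lt.symm

lemma T_zero : T 0 = 0 := by simpa [Y_zero] using T_Y 0

lemma T_nonneg {y : ℝ} (h : 0 ≤ y) : 0 ≤ T y := by
  by_contra hn
  have := T_lt.1 (not_le.1 hn)
  rw [Y_zero] at this
  linarith

lemma T_pos {y : ℝ} (h : 0 < y) : 0 < T y := lt_T.2 (by rwa [Y_zero])

lemma T_lt_one {y : ℝ} (h : y < 3) : T y < 1 := T_lt.2 (by rw [Y_of_ge le_rfl]; linarith)

lemma T_lip : LipschitzWith 1 T := LipschitzWith.of_dist_le_mul fun a b => by
  simp only [Real.dist_eq, NNReal.coe_one, one_mul]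
  rcases le_total (T a) (T b) with h | h
  · have := Y_slope h
    rw [Y_T, Y_T] at this
    rw [abs_of_nonpos (by linarith), abs_of_nonpos (by linarith)]; linarith
  · have := Y_slope h
    rw [Y_T, Y_T] at this
    rw [abs_of_nonneg (by linarith), abs_of_nonneg (by linarith)]; linarith

/-- the boundary is the curve `x = f y` -/
noncomputable def f (y : ℝ) : ℝ := π / 2 * T |y|

lemma f_lip : LipschitzWith 2 f := LipschitzWith.of_dist_le_mul fun a b => by
  have h := T_lip.dist_le_mul |a| |b|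
  simp only [Real.dist_eq, NNReal.coe_one, one_mul, f, ← mul_sub, abs_mul, NNReal.coe_ofNat] at *
  have h2 := abs_abs_sub_abs_le a b
  have : |π / 2| ≤ 2 := by rw [abs_of_pos (by positivity)]; linarith [pi_le_four]
  exact mul_le_mul this (h.trans h2) (abs_nonneg _) (by norm_num)

lemma f_neg (y : ℝ) : f (-y) = f y := by simp [f]

lemma f_nonneg (y : ℝ) : 0 ≤ f y := mul_nonneg (by positivity) (T_nonneg (abs_nonneg _))

lemma f_lt {x y : ℝ} : f y < x ↔ |y| < Y (2 / π * x) := by
  rw [← T_lt, f]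
  have := pi_pos
  rw [div_mul_eq_mul_div, div_mul_eq_mul_div, lt_div_iff₀ this, div_lt_iff₀ two_pos]
  constructor <;> intro h <;> linarith

noncomputable def κ (y : ℝ) : ℝ := if y ≤ 0 then 0 else (2 - log (T y))⁻¹

lemma κ_tend : Tendsto (fun y => (2 - log (T y))⁻¹) (𝓝[>] 0) (𝓝 0) := by
  have h1 : Tendsto T (𝓝[>] 0) (𝓝[>] 0) := by
    refine tendsto_nhdsWithin_iff.2 ⟨?_, eventually_nhdsWithin_of_forall fun y hy => T_pos hy⟩
    have := T_lip.continuous.tendsto 0
    rw [T_zero] at this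
    exact this.mono_left nhdsWithin_le_nhds
  refine tendsto_inv_atTop_zero.comp ?_
  simp only [sub_eq_add_neg]
  exact tendsto_atTop_add_const_left _ _
    (tendsto_neg_atBot_atTop.comp (tendsto_log_nhdsGT_zero.comp h1))

lemma den_pos {y : ℝ} (h0 : 0 < y) (h3 : y < 3) : 0 < 2 - log (T y) := by
  have := log_nonpos (T_pos h0).le (T_lt_one h3).le
  linarith

lemma κ_cont {y : ℝ} (h3 : y < 3) : ContinuousAt κ y := by
  rcases lt_trichotomy y 0 with h | rfl | h
  · refine (continuousAt_const (y := (0 : ℝ))).congr ?_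
    filter_upwards [eventually_lt_nhds h] with x hx
    simp [κ, hx.le]
  · rw [continuousAt_iff_continuous_left_right]
    refine ⟨(continuousWithinAt_const (b := (0 : ℝ))).congr (fun x hx => ?_) (by simp [κ]), ?_⟩
    · simp [κ, mem_Iic.1 hx]
    · rw [← continuousWithinAt_Ioi_iff_Ici, ContinuousWithinAt, show κ 0 = 0 by simp [κ]]
      refine κ_tend.congr' (eventually_nhdsWithin_of_forall fun x hx => ?_)
      simp [κ, not_le.2 (mem_Ioi.1 hx)]
  · have h1 : ContinuousAt (fun y => (2 - log (T y))⁻¹) y :=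
      (continuousAt_const.sub (T_lip.continuous.continuousAt.log (T_pos h).ne')).inv₀
        (den_pos h h3).ne'
    refine h1.congr ?_
    filter_upwards [eventually_gt_nhds h] with x hx
    simp [κ, not_le.2 hx]

lemma T_deriv {y : ℝ} (h0 : 0 < y) (h3 : y < 3) : HasDerivAt T (2 - log (T y))⁻¹ y := by
  refine HasDerivAt.of_local_left_inverse (f := Y) T_lip.continuous.continuousAt ?_
    (den_pos h0 h3).ne' (Eventually.of_forall Y_T)
  have h1 := T_pos h0
  have h2 := T_lt_one h3
  have h : HasDerivAt (fun t => 3 * t - t * log t) (3 * 1 - (log (T y) + 1)) (T y) :=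
    ((hasDerivAt_id _).const_mul 3).sub (hasDerivAt_mul_log h1.ne')
  refine (h.congr_of_eventuallyEq ?_).congr_deriv (by ring)
  filter_upwards [eventually_gt_nhds h1, eventually_lt_nhds h2] with t t0 t1
  rw [Y_of_mem t0.le t1.le]; ring

lemma A_deriv {y : ℝ} (h3 : y < 3) : HasDerivAt (fun y => T (max y 0)) (κ y) y := by
  rcases lt_trichotomy y 0 with h | rfl | h
  · rw [show κ y = 0 by simp [κ, h.le]]
    refine (hasDerivAt_const y (T 0)).congr_of_eventuallyEq ?_
    filter_upwards [eventually_lt_nhds h] with x hx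
    rw [max_eq_right hx.le]
  · rw [show κ 0 = 0 by simp [κ], ← hasDerivWithinAt_univ, ← Iic_union_Ici (a := (0 : ℝ))]
    refine HasDerivWithinAt.union ((hasDerivWithinAt_const _ _ (T 0)).congr
      (fun x hx => by rw [max_eq_right hx]) (by simp)) ?_
    refine HasDerivWithinAt.congr (f := T) ?_ (fun x hx => by rw [max_eq_left hx]) (by simp)
    refine hasDerivWithinAt_Ici_of_tendsto_deriv (s := Ioo 0 3)
      (fun x hx => (T_deriv hx.1 hx.2).differentiableAt.differentiableWithinAt)
      T_lip.continuous.continuousWithinAt (Ioo_mem_nhdsGT h3) ?_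
    refine κ_tend.congr' ?_
    filter_upwards [Ioo_mem_nhdsGT h3] with x hx
    exact (T_deriv hx.1 hx.2).deriv.symm
  · rw [show κ y = (2 - log (T y))⁻¹ by simp [κ, not_le.2 h]]
    refine (T_deriv h h3).congr_of_eventuallyEq ?_
    filter_upwards [eventually_gt_nhds h] with x hx
    rw [max_eq_left hx.le]

lemma f_deriv {y : ℝ} (h : y ∈ Ioo (-1 : ℝ) 1) : HasDerivAt f (π / 2 * (κ y - κ (-y))) y := by
  have h1 := A_deriv (y := y) (by linarith [h.2])
  have h2 := (A_deriv (y := -y) (by linarith [h.1])).comp y (hasDerivAt_neg y)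
  refine ((h1.add h2).const_mul (π / 2)).congr_deriv (by ring) |>.congr_of_eventuallyEq
    (Eventually.of_forall fun x => ?_)
  simp only [f, Pi.add_apply, Function.comp]
  rcases le_total x 0 with hx | hx
  · rw [max_eq_right hx, max_eq_left (neg_nonneg.2 hx), abs_of_nonpos hx, T_zero, zero_add]
  · rw [max_eq_left hx, max_eq_right (neg_nonpos.2 hx), abs_of_nonneg hx, T_zero, add_zero]

lemma f_C1 : ContDiffOn ℝ 1 f (Ioo (-1) 1) := by
  rw [show (1 : WithTop ℕ∞) = 0 + 1 from rfl, contDiffOn_succ_iff_deriv_of_isOpen isOpen_Ioo]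
  refine ⟨fun y hy => (f_deriv hy).differentiableAt.differentiableWithinAt, by simp,
    contDiffOn_zero.2 (ContinuousOn.congr (f := fun y => π / 2 * (κ y - κ (-y)))
      (fun y hy => ?_) fun y hy => (f_deriv hy).deriv)⟩
  exact (continuousAt_const.mul ((κ_cont (by linarith [hy.2])).sub
    ((κ_cont (y := -y) (by linarith [hy.1])).comp continuous_neg.continuousAt))).continuousWithinAt

/-- the domain -/
def D : Set ℂ := {z | f z.im < z.re ∧ z.re + |z.im| < 6}

lemma D_open : IsOpen D := by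
  have := f_lip.continuous
  have h1 : IsOpen {z : ℂ | f z.im < z.re} := isOpen_lt (by fun_prop) (by fun_prop)
  have h2 : IsOpen {z : ℂ | z.re + |z.im| < 6} := isOpen_lt (by fun_prop) (by fun_prop)
  exact h1.inter h2

lemma D_conv : Convex ℝ D := by
  intro z hz w hw a b ha hb hab
  have p := pi_pos
  have z0 := (f_nonneg _).trans hz.1.le
  have w0 := (f_nonneg _).trans hw.1.le
  have h1 := f_lt.1 hz.1
  have h2 := f_lt.1 hw.1
  have h3 := Y_conc.2 (mem_Ici.2 (by positivity : 0 ≤ 2 / π * z.re))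
    (mem_Ici.2 (by positivity : 0 ≤ 2 / π * w.re)) ha hb hab
  have h4 : |a * z.im + b * w.im| ≤ a * |z.im| + b * |w.im| :=
    (abs_add_le _ _).trans_eq (by rw [abs_mul, abs_mul, abs_of_nonneg ha, abs_of_nonneg hb])
  have key : ∀ p q r s : ℝ, p < q → r < s → a * p + b * r < a * q + b * s := fun p q r s h h' => by
    rcases ha.eq_or_lt with rfl | ha
    · rw [zero_add] at hab; subst hab; simpa using h'
    · nlinarith [mul_lt_mul_of_pos_left h ha, mul_le_mul_of_nonneg_left h'.le hb]
  simp only [D, mem_ofPred_eq, Complex.add_im, Complex.add_re, Complex.smul_im, Complex.smul_re,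
    smul_eq_mul, f_lt] at h3 ⊢
  refine ⟨h4.trans_lt ((key _ _ _ _ h1 h2).trans_le (h3.trans_eq (by congr 1; ring))), ?_⟩
  have := key _ _ _ _ hz.2 hw.2
  nlinarith

lemma mem_D {z : ℂ} (hz : ‖z‖ < 2) : z ∈ D ↔ f z.im < z.re := by
  refine and_iff_left ?_
  have h1 := Complex.re_le_norm z
  have h2 := Complex.abs_im_le_norm z
  linarith

lemma front {z : ℂ} (hz : ‖z‖ < 2) : z ∈ frontier D ↔ z.re = f z.im := by
  have hc := f_lip.continuous
  rw [D_open.frontier_eq, Set.mem_sdiff, mem_D hz]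
  refine ⟨fun h => le_antisymm (not_lt.1 h.2) ?_, fun h => ⟨?_, by simp [h]⟩⟩
  · exact closure_minimal (t := {z : ℂ | f z.im ≤ z.re}) (fun w hw => hw.1.le)
      (isClosed_le (by fun_prop) (by fun_prop)) h.1
  · have t : Tendsto (fun e : ℝ => z + e) (𝓝[>] 0) (𝓝 (z + (0 : ℝ))) :=
      (by fun_prop : Continuous fun e : ℝ => z + e).continuousAt.tendsto.mono_left
        nhdsWithin_le_nhds
    rw [Complex.ofReal_zero, add_zero] at t
    refine mem_closure_of_tendsto t ?_
    filter_upwards [t.eventually (isOpen_ball.mem_nhds (mem_ball_zero_iff.2 hz)),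
      self_mem_nhdsWithin] with e h1 h2
    rw [mem_D (mem_ball_zero_iff.1 h1)]
    simpa [h] using h2

end Pool.Agent.H.MP_056161_an
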