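import Pool.Agent.H.MP_056161_an.A

set_option autoImplicit false

namespace Pool.Agent.H.MP_056161_an

open Real Set Filter Topology Metric
open scoped ComplexConjugate Laplacian

noncomputable def φ (s : ℂ) : ℂ := s * (3 - Complex.log s)

def K : Set ℂ := {s | 0 ≤ s.re ∧ ‖s‖ ≤ 1}

def S : Set ℂ := {s | 0 < s.re ∧ ‖s‖ < 1}

lemma S_K : S ⊆ K := fun _ h => ⟨h.1.le, h.2.le⟩

lemma S_open : IsOpen S := by
  have h1 : IsOpen {z : ℂ | 0 < z.re} := isOpen_lt (by fun_prop) (by fun_prop)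
  have h2 : IsOpen {z : ℂ | ‖z‖ < 1} := isOpen_lt (by fun_prop) (by fun_prop)
  exact h1.inter h2

lemma S_conv : Convex ℝ S := by
  convert (convex_halfSpace_re_gt 0).inter (convex_ball (0 : ℂ) 1) using 1
  ext z; simp [S]

lemma K_cpt : IsCompact K := by
  have h1 : IsClosed {z : ℂ | 0 ≤ z.re} := isClosed_le (by fun_prop) (by fun_prop)
  convert (isCompact_closedBall (0 : ℂ) 1).inter_left h1 using 1
  ext z; simp [K]

lemma K_cl : K ⊆ closure S := fun s hs => by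
  have t : Tendsto (fun e : ℝ => (1 - e) * s + e / 2) (𝓝[>] 0)
      (𝓝 ((1 - (0 : ℝ)) * s + (0 : ℝ) / 2)) :=
    (by fun_prop : Continuous fun e : ℝ => (1 - e) * s + e / 2).continuousAt.tendsto.mono_left
      nhdsWithin_le_nhds
  simp only [Complex.ofReal_zero, sub_zero, one_mul, zero_div, add_zero] at t
  refine mem_closure_of_tendsto t ?_
  filter_upwards [Ioo_mem_nhdsGT one_pos] with e he
  have h1 := hs.1
  have h2 := hs.2
  have e0 := he.1
  have e1 := he.2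
  constructor
  · simp
    nlinarith
  · refine (norm_add_le _ _).trans_lt ?_
    rw [norm_mul, show (1 - e : ℂ) = ((1 - e : ℝ) : ℂ) by simp, show (e / 2 : ℂ) = ((e / 2 : ℝ) : ℂ)
      by simp, Complex.norm_real, Complex.norm_real, Real.norm_of_nonneg (by linarith),
      Real.norm_of_nonneg (by linarith)]
    nlinarith

lemma K_slit {s : ℂ} (hs : s ∈ K) (h0 : s ≠ 0) : s ∈ Complex.slitPlane := by
  rcases hs.1.eq_or_lt with h | h
  · exact Or.inr fun h' => h0 (Complex.ext h.symm h')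
  · exact Or.inl h

lemma ml_cont : ContinuousOn (fun s => s * Complex.log s) K := fun s hs => by
  by_cases h0 : s = 0
  · subst h0
    refine ContinuousAt.continuousWithinAt ?_
    rw [ContinuousAt, zero_mul]
    have t : Tendsto (fun s : ℂ => |‖s‖ * log ‖s‖| + ‖s‖ * π) (𝓝 0)
        (𝓝 (|‖(0 : ℂ)‖ * log ‖(0 : ℂ)‖| + ‖(0 : ℂ)‖ * π)) :=
      (((continuous_mul_log.comp continuous_norm).abs.add
        (continuous_norm.mul continuous_const)).tendsto 0)
    simp only [norm_zero, zero_mul, abs_zero, add_zero] at t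
    refine squeeze_zero_norm (fun s => ?_) t
    rw [norm_mul, abs_mul, abs_norm, ← mul_add]
    refine mul_le_mul_of_nonneg_left ((Complex.norm_le_abs_re_add_abs_im _).trans ?_) (norm_nonneg _)
    rw [Complex.log_re, Complex.log_im]
    exact add_le_add le_rfl (Complex.abs_arg_le_pi s)
  · exact (continuousAt_id.mul (continuousAt_clog (K_slit hs h0))).continuousWithinAt

lemma φ_cont : ContinuousOn φ K :=
  ((continuousOn_const (c := (3 : ℂ)).mul continuousOn_id).sub ml_cont).congr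
    fun s _ => by simp only [φ, id, Pi.sub_apply, Pi.mul_apply]; ring

lemma φ_deriv {s : ℂ} (hs : s ∈ S) : HasDerivAt φ (2 - Complex.log s) s := by
  have h0 : s ≠ 0 := fun h => by simpa [h] using hs.1
  refine ((hasDerivAt_id s).mul ((Complex.hasDerivAt_log (Or.inl hs.1)).const_sub 3)).congr_deriv ?_
  simp only [id]
  field_simp
  ring

lemma log_re {s : ℂ} (hs : ‖s‖ ≤ 1) : (Complex.log s).re ≤ 0 := by
  rw [Complex.log_re]
  exact log_nonpos (norm_nonneg _) hs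

lemma φ_ne {s : ℂ} (hs : s ∈ S) : 2 - Complex.log s ≠ 0 := fun h => by
  have h1 := congrArg Complex.re h
  have h2 := log_re hs.2.le
  simp at h1
  linarith

lemma φ_exp0 {a b : ℂ} (ha : a ∈ S) (hb : b ∈ S) : ‖b - a‖ ≤ ‖φ b - φ a‖ := by
  have hm : ∀ τ ∈ Icc (0 : ℝ) 1, a + τ * (b - a) ∈ S := fun τ hτ => by
    simpa using S_conv.add_smul_sub_mem ha hb hτ
  have hd : ∀ τ ∈ Icc (0 : ℝ) 1, HasDerivAt
      (fun τ : ℝ => (conj (b - a) * φ (a + τ * (b - a))).re)
      (conj (b - a) * ((2 - Complex.log (a + τ * (b - a))) * (b - a))).re τ := fun τ hτ => by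
    have h1 : HasDerivAt (fun w : ℂ => a + w * (b - a)) (b - a) τ := by
      simpa using ((hasDerivAt_id (τ : ℂ)).mul_const (b - a)).const_add a
    exact (((φ_deriv (hm τ hτ)).comp (τ : ℂ) h1).const_mul (conj (b - a))).real_of_complex
  obtain ⟨τ, hτ, e⟩ := exists_hasDerivAt_eq_slope _ _ one_pos
    (fun τ hτ => (hd τ hτ).continuousAt.continuousWithinAt) fun τ hτ => hd τ (Ioo_subset_Icc_self hτ)
  have h2 := log_re (hm τ (Ioo_subset_Icc_self hτ)).2.le
  have h3 : conj (b - a) * ((2 - Complex.log (a + τ * (b - a))) * (b - a)) =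
      ((‖b - a‖ ^ 2 : ℝ) : ℂ) * (2 - Complex.log (a + τ * (b - a))) := by
    push_cast
    rw [← Complex.conj_mul']; ring
  rw [h3, Complex.re_ofReal_mul] at e
  simp only [Complex.ofReal_one, one_mul, add_sub_cancel, Complex.ofReal_zero, zero_mul, add_zero,
    sub_zero, div_one, ← Complex.sub_re, ← mul_sub] at e
  have h4 := Complex.re_le_norm (conj (b - a) * (φ b - φ a))
  rw [norm_mul, Complex.norm_conj, ← e, Complex.sub_re, Complex.re_ofNat] at h4
  rcases (norm_nonneg (b - a)).eq_or_lt with h | h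
  · rw [← h]; exact norm_nonneg _
  · refine le_of_mul_le_mul_left ?_ h
    nlinarith [sq_nonneg ‖b - a‖]

lemma φ_exp {a b : ℂ} (ha : a ∈ K) (hb : b ∈ K) : ‖b - a‖ ≤ ‖φ b - φ a‖ := by
  have h1 : ∀ {a b : ℂ}, a ∈ K → (∀ a ∈ S, ‖b - a‖ ≤ ‖φ b - φ a‖) → ‖b - a‖ ≤ ‖φ b - φ a‖ :=
    fun {a b} ha h => ContinuousWithinAt.closure_le (K_cl ha)
      (f := fun a => ‖b - a‖) (g := fun a => ‖φ b - φ a‖) (by fun_prop)
      (continuousWithinAt_const.sub ((φ_cont a ha).mono S_K)).norm h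
  refine h1 ha fun a ha => ?_
  rw [norm_sub_rev, norm_sub_rev (φ b)]
  exact h1 hb fun b hb => φ_exp0 hb ha

noncomputable def σ : ℂ → ℂ := Function.invFunOn φ K

lemma σ_mem {z : ℂ} (h : z ∈ φ '' K) : σ z ∈ K := Function.invFunOn_mem h

lemma φ_σ {z : ℂ} (h : z ∈ φ '' K) : φ (σ z) = z := Function.invFunOn_eq h

lemma σ_lip {z w : ℂ} (hz : z ∈ φ '' K) (hw : w ∈ φ '' K) : ‖σ z - σ w‖ ≤ ‖z - w‖ := by
  simpa only [φ_σ hz, φ_σ hw] using φ_exp (σ_mem hw) (σ_mem hz)

lemma σ_φ {s : ℂ} (h : s ∈ K) : σ (φ s) = s := by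
  have := φ_exp h (σ_mem ⟨s, h, rfl⟩)
  rwa [φ_σ ⟨s, h, rfl⟩, sub_self, norm_zero, norm_le_zero_iff, sub_eq_zero] at this

lemma σ_cont : ContinuousOn σ (φ '' K) :=
  (LipschitzOnWith.of_dist_le_mul (K := 1) fun z hz w hw => by
    simpa only [dist_eq_norm, NNReal.coe_one, one_mul] using σ_lip hz hw).continuousOn

lemma log_tI {t : ℝ} (h : t ≠ 0) :
    Complex.log (t * Complex.I) = log t + (π / 2 * (|t| / t) : ℝ) * Complex.I := by
  rcases h.lt_or_gt with h | h
  · rw [show (t * Complex.I : ℂ) = ((-t : ℝ) : ℂ) * -Complex.I by simp,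
      Complex.log_ofReal_mul (neg_pos.2 h) (by simp), Complex.log_neg_I, log_neg_eq_log,
      abs_of_neg h, neg_div, div_self h.ne]
    simp
  · rw [Complex.log_ofReal_mul h Complex.I_ne_zero, Complex.log_I, abs_of_pos h, div_self h.ne']
    simp

lemma φ_I (t : ℝ) : φ (t * Complex.I) = (π / 2 * |t| : ℝ) + (t * (3 - log t) : ℝ) * Complex.I := by
  by_cases h : t = 0
  · simp [φ, h]
  rw [φ, log_tI h]
  have : (t : ℂ) ≠ 0 := by exact_mod_cast h
  push_cast
  field_simp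
  ring_nf
  simp

lemma abs_Y {t : ℝ} (h : |t| ≤ 1) : |t * (3 - log t)| = Y |t| := by
  have := log_nonpos (abs_nonneg t) h
  rw [Y_of_mem (abs_nonneg t) h, abs_mul, ← log_abs t, abs_of_nonneg (by linarith : 0 ≤ 3 - log |t|)]

lemma f_Y {t : ℝ} (h : |t| ≤ 1) : f (t * (3 - log t)) = π / 2 * |t| := by
  rw [f, abs_Y h, T_Y]

lemma tI_mem {t : ℝ} (h : |t| ≤ 1) : (t * Complex.I : ℂ) ∈ K := ⟨by simp, by simpa using h⟩

lemma bd_param {z : ℂ} (hz : ‖z‖ < 2) (h : z.re = f z.im) :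
    ∃ t : ℝ, |t| ≤ 1 ∧ φ (t * Complex.I) = z := by
  have h1 := (Complex.abs_im_le_norm z).trans_lt hz
  have h2 := T_nonneg (abs_nonneg z.im)
  have h3 := (T_lt_one (y := |z.im|) (by linarith)).le
  have h4 := Y_of_mem h2 h3
  rw [Y_T] at h4
  rcases le_total 0 z.im with hi | hi
  · refine ⟨T |z.im|, by rwa [abs_of_nonneg h2], ?_⟩
    rw [φ_I, ← h4, abs_of_nonneg h2, abs_of_nonneg hi]
    refine Complex.ext ?_ (by simp)
    simp [h, f, abs_of_nonneg hi]
  · refine ⟨-T |z.im|, by rwa [abs_neg, abs_of_nonneg h2], ?_⟩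
    rw [φ_I, log_neg_eq_log, neg_mul, ← h4, abs_neg, abs_of_nonneg h2, abs_of_nonpos hi]
    refine Complex.ext ?_ (by simp)
    simp [h, f, abs_of_nonpos hi]

/-- the part of the domain inside the ball -/
def E : Set ℂ := D ∩ ball 0 2

lemma E_open : IsOpen E := D_open.inter isOpen_ball

lemma E_conv : Convex ℝ E := D_conv.inter (convex_ball _ _)

lemma img_open : IsOpen (φ '' S) := by
  refine isOpen_iff_mem_nhds.2 ?_
  rintro _ ⟨s, hs, rfl⟩
  have h : HasStrictDerivAt φ (2 - Complex.log s) s := by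
    have a : AnalyticAt ℂ φ s := (DifferentiableOn.analyticAt (fun w hw =>
      (φ_deriv hw).differentiableAt.differentiableWithinAt) (S_open.mem_nhds hs))
    simpa only [(φ_deriv hs).deriv] using a.contDiffAt.hasStrictDerivAt (n := 1) one_ne_zero
  rw [← h.map_nhds_eq (φ_ne hs)]
  exact image_mem_map (S_open.mem_nhds hs)

lemma img_cl : IsClosed (φ '' K) := (K_cpt.image_of_continuousOn φ_cont).isClosed

lemma E_sub : E ⊆ φ '' S := by
  refine E_conv.isPreconnected.subset_of_closure_inter_subset img_open ?_ ?_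
  · have h0 := exp_pos (-1)
    have h1 : exp (-1) < 1 / 2 := by
      rw [exp_neg, inv_lt_comm₀ (exp_pos 1) (by norm_num)]
      linarith [exp_one_gt_d9]
    have e : φ (exp (-1) : ℝ) = (4 * exp (-1) : ℝ) := by
      rw [φ, ← Complex.ofReal_log h0.le, log_exp]
      push_cast; ring
    have h2 : ‖((4 * exp (-1) : ℝ) : ℂ)‖ < 2 := by
      rw [Complex.norm_real, Real.norm_of_nonneg (by positivity)]; linarith
    refine ⟨(4 * exp (-1) : ℝ), ⟨(mem_D h2).2 ?_, mem_ball_zero_iff.2 h2⟩, _, ⟨?_, ?_⟩, e⟩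
    · rw [Complex.ofReal_im, Complex.ofReal_re, f, abs_zero, T_zero]; linarith
    · rwa [Complex.ofReal_re]
    · rw [Complex.norm_real, Real.norm_of_nonneg h0.le]; linarith
  · rintro z ⟨h1, h2, h3⟩
    obtain ⟨s, hs, rfl⟩ := closure_minimal (image_mono S_K) img_cl h1
    refine ⟨s, ⟨hs.1.lt_of_ne fun h => ?_, hs.2.lt_of_ne fun h => ?_⟩, rfl⟩
    · have e : s = s.im * Complex.I := Complex.ext (by simp [← h]) (by simp)
      have h4 := (Complex.abs_im_le_norm s).trans hs.2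
      have h5 := h2.1
      rw [e, φ_I] at h5
      simp only [Complex.add_im, Complex.ofReal_im, Complex.mul_im, Complex.ofReal_re,
        Complex.I_im, Complex.I_re, mul_one, mul_zero, add_zero, zero_add, Complex.add_re,
        Complex.mul_re, sub_zero, f_Y h4] at h5
      exact lt_irrefl _ h5
    · have h4 := Complex.re_le_norm (3 - Complex.log s)
      have h5 := log_re hs.2
      rw [mem_ball_zero_iff, φ, norm_mul, h, one_mul] at h3
      simp at h4
      linarith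

lemma E_K : closure E ⊆ φ '' K := closure_minimal (E_sub.trans (image_mono S_K)) img_cl

lemma σ_S {z : ℂ} (hz : z ∈ E) : σ z ∈ S := by
  obtain ⟨s, hs, rfl⟩ := E_sub hz
  rwa [σ_φ (S_K hs)]

lemma σ_deriv {z : ℂ} (hz : z ∈ E) : HasDerivAt σ (2 - Complex.log (σ z))⁻¹ z := by
  have h : φ '' K ∈ 𝓝 z := mem_of_superset (E_open.mem_nhds hz) (subset_closure.trans E_K)
  exact HasDerivAt.of_local_left_inverse (σ_cont.continuousAt h) (φ_deriv (σ_S hz))
    (φ_ne (σ_S hz)) (mem_of_superset h fun w hw => φ_σ hw)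

noncomputable def P (s : ℂ) : ℂ := (π ^ 2 / 72 : ℝ) * (7 * s ^ 3 - 3 * s ^ 2 * (s * Complex.log s))

lemma P_cont : ContinuousOn P K :=
  continuousOn_const.mul (ContinuousOn.sub (by fun_prop) (ContinuousOn.mul (by fun_prop) ml_cont))

lemma P_deriv {s : ℂ} (hs : s ∈ S) :
    HasDerivAt P ((π ^ 2 / 8 : ℝ) * s ^ 2 * (2 - Complex.log s)) s := by
  have h0 : s ≠ 0 := fun h => by simpa [h] using hs.1
  refine ((((hasDerivAt_pow 3 s).const_mul 7).sub (((hasDerivAt_pow 2 s).const_mul 3).mul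
    ((hasDerivAt_id s).mul (Complex.hasDerivAt_log (Or.inl hs.1))))).const_mul _).congr_deriv ?_
  simp only [id, Pi.mul_apply]
  push_cast
  field_simp
  ring

lemma P_I (t : ℝ) : (P (t * Complex.I)).re = -(π / 2 * |t|) ^ 3 / 6 := by
  by_cases h : t = 0
  · simp [P, h]
  rw [P, log_tI h, Complex.re_ofReal_mul]
  have e : |t| ^ 3 = t ^ 3 * (|t| / t) := by
    have := sq_abs t
    field_simp
    rw [this]
  rw [mul_pow (π / 2), e]
  generalize |t| / t = q
  simp [pow_succ]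
  ring

noncomputable def u0 (z : ℂ) : ℝ := z.re ^ 3 / 6 + (P (σ z)).re

noncomputable def V0 (z : ℂ) : ℂ := (z.re ^ 2 / 2 : ℝ) + (π ^ 2 / 8 : ℝ) * σ z ^ 2

lemma bd_zero {z : ℂ} (hz : ‖z‖ < 2) (h : z.re = f z.im) : z ∈ φ '' K ∧ u0 z = 0 ∧ V0 z = 0 := by
  obtain ⟨t, ht, rfl⟩ := bd_param hz h
  have e : (φ (t * Complex.I)).re = π / 2 * |t| := by rw [φ_I]; simp
  refine ⟨⟨_, tI_mem ht, rfl⟩, ?_, ?_⟩
  · rw [u0, σ_φ (tI_mem ht), P_I, e]; ring
  · rw [V0, σ_φ (tI_mem ht), e, mul_pow, sq_abs, mul_pow, Complex.I_sq]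
    push_cast; ring

/-- `L v h` is the real part of `v h` -/
noncomputable def L : ℂ →L[ℝ] ℂ →L[ℝ] ℝ :=
  (ContinuousLinearMap.compL ℝ ℂ ℂ ℝ Complex.reCLM).comp (ContinuousLinearMap.mul ℝ ℂ)

lemma L_apply (v h : ℂ) : L v h = (v * h).re := rfl

lemma u0_deriv {z : ℂ} (hz : z ∈ E) : HasFDerivAt u0 (L (V0 z)) z := by
  have h1 := ((P_deriv (σ_S hz)).comp z (σ_deriv hz)).complexToReal_fderiv
  rw [mul_assoc, mul_inv_cancel₀ (φ_ne (σ_S hz)), mul_one] at h1
  have h2 := (((Complex.reCLM.hasFDerivAt (x := z)).pow 3).const_mul (1 / 6 : ℝ)).add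
    (Complex.reCLM.hasFDerivAt.comp z h1)
  refine (h2.congr_fderiv ?_).congr_of_eventuallyEq (Eventually.of_forall fun w => ?_)
  · ext1 h
    rw [L_apply, V0, add_mul, Complex.add_re, Complex.re_ofReal_mul]
    simp
    ring
  · simp [u0]
    ring

lemma u0_cont : ContinuousOn u0 (φ '' K) :=
  ContinuousOn.add (by fun_prop) (Complex.continuous_re.comp_continuousOn
    (P_cont.comp σ_cont fun _ h => σ_mem h))

lemma V0_cont : ContinuousOn V0 (φ '' K) :=
  ContinuousOn.add (by fun_prop) (continuousOn_const.mul (σ_cont.pow 2))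

lemma V0_lip {z w : ℂ} (hz : z ∈ φ '' K) (hw : w ∈ φ '' K) (z2 : ‖z‖ < 2) (w2 : ‖w‖ < 2) :
    ‖V0 z - V0 w‖ ≤ 6 * ‖z - w‖ := by
  have e : V0 z - V0 w = (((z.re + w.re) / 2 * (z - w).re : ℝ) : ℂ) +
      (π ^ 2 / 8 : ℝ) * ((σ z + σ w) * (σ z - σ w)) := by
    simp only [V0, Complex.sub_re]
    push_cast; ring
  rw [e]
  refine (norm_add_le _ _).trans ?_
  have h1 : ‖σ z + σ w‖ ≤ 2 := (norm_add_le _ _).trans (by linarith [(σ_mem hz).2, (σ_mem hw).2])
  have h2 := σ_lip hz hw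
  have h3 : |π ^ 2 / 8| ≤ 2 := by
    rw [abs_of_nonneg (by positivity)]
    nlinarith [pi_le_four, pi_pos]
  have h4 : |(z.re + w.re) / 2| ≤ 2 := by
    have := abs_le.1 ((Complex.abs_re_le_norm z).trans z2.le)
    have := abs_le.1 ((Complex.abs_re_le_norm w).trans w2.le)
    rw [abs_le]; constructor <;> linarith
  have h5 := Complex.abs_re_le_norm (z - w)
  simp only [norm_mul, Complex.norm_real, Real.norm_eq_abs]
  calc _ ≤ 2 * ‖z - w‖ + 2 * (2 * ‖z - w‖) := by gcongr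
    _ = _ := by ring

noncomputable def u : ℂ → ℝ := D.indicator u0

noncomputable def V : ℂ → ℂ := D.indicator V0

lemma out_zero {F : Type} [Zero F] (g : ℂ → F) {z : ℂ} (h : z ∉ closure D) :
    D.indicator g =ᶠ[𝓝 z] fun _ => 0 := by
  filter_upwards [isClosed_closure.isOpen_compl.mem_nhds h] with w hw
  exact indicator_of_notMem (fun h => hw (subset_closure h)) _

lemma in_eq {F : Type} [Zero F] (g : ℂ → F) {z : ℂ} (h : z ∈ D) : D.indicator g =ᶠ[𝓝 z] g := by
  filter_upwards [D_open.mem_nhds h] with w hw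
  exact indicator_of_mem hw _

lemma u_deriv {z : ℂ} (hz : ‖z‖ < 2) : HasFDerivAt u (L (V z)) z := by
  by_cases h : z ∈ D
  · rw [V, indicator_of_mem h]
    exact (u0_deriv ⟨h, mem_ball_zero_iff.2 hz⟩).congr_of_eventuallyEq (in_eq _ h)
  rw [V, indicator_of_notMem h, map_zero]
  by_cases h2 : z ∈ closure D
  swap
  · exact (hasFDerivAt_const 0 z).congr_of_eventuallyEq (out_zero _ h2)
  obtain ⟨h3, h4, h5⟩ := bd_zero hz ((front hz).1 (by rw [D_open.frontier_eq]; exact ⟨h2, h⟩))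
  have h6 : HasFDerivWithinAt u0 (0 : ℂ →L[ℝ] ℝ) (closure E) z := by
    refine hasFDerivWithinAt_closure_of_tendsto_fderiv
      (fun w hw => (u0_deriv hw).differentiableAt.differentiableWithinAt) E_conv E_open
      (fun w hw => (u0_cont w (E_K hw)).mono (subset_closure.trans E_K)) ?_
    have t := (L.continuous.tendsto _).comp ((V0_cont z h3).mono (subset_closure.trans E_K))
    rw [h5, map_zero] at t
    exact t.congr' (eventually_nhdsWithin_of_forall fun w hw => (u0_deriv hw).fderiv.symm)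
  have h7 : HasFDerivWithinAt u (0 : ℂ →L[ℝ] ℝ) E z :=
    (h6.mono subset_closure).congr (fun w hw => indicator_of_mem hw.1 _)
      (by rw [h4, u, indicator_of_notMem h])
  have h8 : HasFDerivWithinAt u (0 : ℂ →L[ℝ] ℝ) Dᶜ z :=
    (hasFDerivWithinAt_const 0 z _).congr (fun w hw => indicator_of_notMem hw _)
      (indicator_of_notMem h _)
  refine (h7.union h8).hasFDerivAt (mem_of_superset (isOpen_ball.mem_nhds
    (mem_ball_zero_iff.2 hz)) fun w hw => ?_)
  by_cases h9 : w ∈ D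
  · exact Or.inl ⟨h9, hw⟩
  · exact Or.inr h9

lemma V_lip0 {z w : ℂ} (z2 : ‖z‖ < 2) (w2 : ‖w‖ < 2) (hz : z ∈ D) (hw : w ∉ D) :
    ‖V z - V w‖ ≤ 6 * ‖z - w‖ := by
  have hc := f_lip.continuous
  have c : Continuous fun τ : ℝ => (z + τ • (w - z)).re - f (z + τ • (w - z)).im := by fun_prop
  obtain ⟨τ, hτ, e⟩ := intermediate_value_Icc' zero_le_one c.continuousOn
    (show (0 : ℝ) ∈ _ from ⟨by simpa using not_lt.1 (mt (mem_D w2).2 hw),
      by simpa using ((mem_D z2).1 hz).le⟩)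
  have p2 : ‖z + τ • (w - z)‖ < 2 := mem_ball_zero_iff.1 ((convex_ball (0 : ℂ) 2).add_smul_sub_mem
    (mem_ball_zero_iff.2 z2) (mem_ball_zero_iff.2 w2) hτ)
  obtain ⟨h3, -, h5⟩ := bd_zero p2 (sub_eq_zero.1 e)
  have h := V0_lip (E_K (subset_closure ⟨hz, mem_ball_zero_iff.2 z2⟩)) h3 z2 p2
  rw [V, indicator_of_mem hz, indicator_of_notMem hw, ← h5]
  refine h.trans (mul_le_mul_of_nonneg_left ?_ (by norm_num))
  rw [sub_add_cancel_left, norm_neg, norm_smul, norm_sub_rev, Real.norm_of_nonneg hτ.1]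
  exact mul_le_of_le_one_left (norm_nonneg _) hτ.2

lemma V_lip {z w : ℂ} (z2 : ‖z‖ < 2) (w2 : ‖w‖ < 2) : ‖V z - V w‖ ≤ 6 * ‖z - w‖ := by
  by_cases hz : z ∈ D <;> by_cases hw : w ∈ D
  · rw [V, indicator_of_mem hz, indicator_of_mem hw]
    exact V0_lip (E_K (subset_closure ⟨hz, mem_ball_zero_iff.2 z2⟩))
      (E_K (subset_closure ⟨hw, mem_ball_zero_iff.2 w2⟩)) z2 w2
  · exact V_lip0 z2 w2 hz hw
  · rw [norm_sub_rev, norm_sub_rev z]
    exact V_lip0 w2 z2 hw hz
  · simp [V, hz, hw]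

lemma u_lip : LipschitzOnWith (‖L‖₊ * 6) (fderiv ℝ u) (ball 0 2) :=
  LipschitzOnWith.of_dist_le_mul fun z hz w hw => by
    rw [mem_ball_zero_iff] at hz hw
    rw [(u_deriv hz).fderiv, (u_deriv hw).fderiv, dist_eq_norm, dist_eq_norm, ← map_sub]
    refine (L.le_opNorm _).trans ?_
    push_cast
    rw [mul_assoc]
    exact mul_le_mul_of_nonneg_left (V_lip hz hw) (norm_nonneg _)

lemma fd_eq {z : ℂ} (hz : ‖z‖ < 2) : fderiv ℝ u =ᶠ[𝓝 z] fun w => L (V w) := by
  filter_upwards [isOpen_ball.mem_nhds (mem_ball_zero_iff.2 hz)] with w hw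
  exact (u_deriv (mem_ball_zero_iff.1 hw)).fderiv

lemma lap {z : ℂ} (hz : ‖z‖ < 2) (h : z ∉ frontier D) :
    DifferentiableAt ℝ (fderiv ℝ u) z ∧ Δ u z = z.re * D.indicator 1 z := by
  suffices ∃ W : ℂ →L[ℝ] ℂ, HasFDerivAt V W z ∧
      (W 1).re + (W Complex.I * Complex.I).re = z.re * D.indicator 1 z by
    obtain ⟨W, h1, h2⟩ := this
    have h3 : HasFDerivAt (fderiv ℝ u) (L.comp W) z :=
      (L.hasFDerivAt.comp z h1).congr_of_eventuallyEq (fd_eq hz)
    refine ⟨h3.differentiableAt, ?_⟩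
    rw [← h2, InnerProductSpace.laplacian_eq_iteratedFDeriv_complexPlane]
    simp [iteratedFDeriv_two_apply, h3.fderiv, L_apply]
  by_cases h1 : z ∈ D
  · have hE : z ∈ E := ⟨h1, mem_ball_zero_iff.2 hz⟩
    have h2 := (((σ_deriv hE).pow 2).const_mul ((π ^ 2 / 8 : ℝ) : ℂ)).complexToReal_fderiv
    have h3 := (Complex.ofRealCLM.hasFDerivAt.comp z
      (((Complex.reCLM.hasFDerivAt (x := z)).pow 2).const_mul (1 / 2 : ℝ))).add h2
    refine ⟨_, (h3.congr_of_eventuallyEq (Eventually.of_forall fun w => ?_)).congr_of_eventuallyEq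
      (in_eq V0 h1), ?_⟩
    · simp [V0]
      ring
    · generalize ((π ^ 2 / 8 : ℝ) : ℂ) * _ = c
      simp [h1]
  · rw [D_open.frontier_eq] at h
    exact ⟨0, (hasFDerivAt_const 0 z).congr_of_eventuallyEq (out_zero _ fun h2 => h ⟨h2, h1⟩),
      by simp [h1]⟩

end Pool.Agent.H.MP_056161_an
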