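import Pool.Agent.H.MP_056161_an.B

set_option autoImplicit false

namespace Pool.Agent.H.MP_056161_an

open Real Set Filter Topology Metric

lemma D_bdd : Bornology.IsBounded D := by
  refine (isBounded_closedBall (x := (0 : ℂ)) (r := 6)).subset fun z hz => ?_
  have h := Complex.norm_le_abs_re_add_abs_im z
  rw [abs_of_nonneg ((f_nonneg _).trans hz.1.le)] at h
  exact mem_closedBall_zero_iff.2 (h.trans hz.2.le)

lemma D_conn : IsConnected D := D_conv.isConnected ⟨1, (mem_D (by simp)).2 (by simp [f, T_zero])⟩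

lemma lip_corner : LipschitzWith 2 fun a : ℝ => -min (4 / π * a + 1) (6 - a) := by
  have h1 : LipschitzWith 2 fun a : ℝ => 4 / π * a + 1 := LipschitzWith.of_dist_le_mul fun a b => by
    simp only [Real.dist_eq, add_sub_add_right_eq_sub, ← mul_sub, abs_mul, NNReal.coe_ofNat]
    refine mul_le_mul_of_nonneg_right ?_ (abs_nonneg _)
    rw [abs_of_pos (by positivity), div_le_iff₀ pi_pos]
    linarith [pi_gt_three]
  have h2 : LipschitzWith 2 fun a : ℝ => 6 - a := LipschitzWith.of_dist_le_mul fun a b => by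
    simp only [Real.dist_eq, sub_sub_sub_cancel_left, NNReal.coe_ofNat, abs_sub_comm b]
    linarith [abs_nonneg (a - b)]
  have h3 := (h1.min h2).neg
  rw [max_self] at h3
  exact h3

lemma charts (p : ℂ) (hp : p ∈ frontier D) : ∃ r > 0, ∃ e : ℂ, ‖e‖ = 1 ∧ ∃ (g : ℝ → ℝ) (M : NNReal),
    LipschitzWith M g ∧ ∀ z ∈ ball p r, z ∈ D ↔ g (e * z).re < (e * z).im := by
  have hc := f_lip.continuous
  suffices ∃ e : ℂ, ‖e‖ = 1 ∧ ∃ (g : ℝ → ℝ) (M : NNReal), LipschitzWith M g ∧
      ∀ᶠ z in 𝓝 p, z ∈ D ↔ g (e * z).re < (e * z).im by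
    obtain ⟨e, h1, g, M, h2, h3⟩ := this
    obtain ⟨r, r0, hr⟩ := Metric.eventually_nhds_iff_ball.1 h3
    exact ⟨r, r0, e, h1, g, M, h2, hr⟩
  have c1 : f p.im ≤ p.re := closure_minimal (t := {z : ℂ | f z.im ≤ z.re}) (fun w hw => hw.1.le)
    (isClosed_le (by fun_prop) (by fun_prop)) (frontier_subset_closure hp)
  have c2 : p.re + |p.im| ≤ 6 := closure_minimal (t := {z : ℂ | z.re + |z.im| ≤ 6})
    (fun w hw => hw.2.le) (isClosed_le (by fun_prop) (by fun_prop)) (frontier_subset_closure hp)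
  rcases c2.lt_or_eq with c2 | c2
  · refine ⟨Complex.I, by simp, f, 2, f_lip, ?_⟩
    have : IsOpen {z : ℂ | z.re + |z.im| < 6} := isOpen_lt (by fun_prop) (by fun_prop)
    filter_upwards [this.mem_nhds c2] with z hz
    simpa [D, f_neg] using fun _ => hz
  rcases c1.lt_or_eq with c1 | c1
  · refine ⟨-Complex.I, by simp, fun a => |a| - 6, 1, LipschitzWith.of_dist_le_mul fun a b => ?_, ?_⟩
    · simpa [Real.dist_eq] using abs_abs_sub_abs_le a b
    have : IsOpen {z : ℂ | f z.im < z.re} := isOpen_lt (by fun_prop) (by fun_prop)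
    filter_upwards [this.mem_nhds c1] with z hz
    simp only [D, mem_ofPred_eq, show f z.im < z.re from hz, true_and]
    simp
    constructor <;> intro h <;> linarith
  have pp := pi_pos
  have h1 : 1 < T |p.im| := by
    by_contra hn
    have h2 := Y_sm.monotone (not_lt.1 hn)
    rw [Y_T, Y_of_ge le_rfl] at h2
    have : π / 2 * T |p.im| ≤ π / 2 * 1 := by gcongr; exact not_lt.1 hn
    rw [← c1, f] at c2
    linarith [pi_le_four]
  have h2 : 0 < |p.im| := by
    have := lt_T.1 h1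
    rw [Y_of_ge le_rfl] at this
    linarith
  have h3 : ∀ᶠ z in 𝓝 p, z ∈ D ↔ -min (4 / π * z.re + 1) (6 - z.re) < -|z.im| := by
    have : IsOpen {z : ℂ | 1 < 2 / π * z.re} := isOpen_lt (by fun_prop) (by fun_prop)
    filter_upwards [this.mem_nhds (show 1 < 2 / π * p.re by
      rw [← c1, f]; convert h1 using 1; field_simp)] with z hz
    rw [neg_lt_neg_iff, lt_min_iff, D, mem_ofPred_eq, f_lt, Y_of_ge (le_of_lt hz)]
    refine and_congr (by ring_nf) ?_
    constructor <;> intro h <;> linarith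
  rcases (abs_pos.1 h2).lt_or_gt with h | h
  · refine ⟨1, by simp, _, 2, lip_corner, ?_⟩
    have : IsOpen {z : ℂ | z.im < 0} := isOpen_lt (by fun_prop) (by fun_prop)
    filter_upwards [this.mem_nhds h, h3] with z hz e
    rw [e, abs_of_neg hz, neg_neg, one_mul]
  · refine ⟨-1, by simp, _, _, lip_corner.comp LipschitzWith.id.neg, ?_⟩
    have : IsOpen {z : ℂ | 0 < z.im} := isOpen_lt (by fun_prop) (by fun_prop)
    filter_upwards [this.mem_nhds h, h3] with z hz e
    rw [e, abs_of_pos hz]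
    simp

lemma tend (α : ℝ) (hα : 0 < α) :
    Tendsto (fun t : ℝ => (t * (3 - log t)) ^ (1 + α) / t) (𝓝[>] 0) (𝓝 0) := by
  have hβ : 0 < α / (1 + α) := by positivity
  have h1 : Tendsto (fun t : ℝ => t ^ (α / (1 + α))) (𝓝[>] 0) (𝓝 0) := by
    have := (continuousAt_rpow_const 0 _ (Or.inr hβ.le)).tendsto
    rw [zero_rpow hβ.ne'] at this
    exact this.mono_left nhdsWithin_le_nhds
  have h2 := (h1.const_mul 3).sub (tendsto_log_mul_rpow_nhdsGT_zero hβ)
  rw [mul_zero, sub_zero] at h2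
  have h3 := (continuousAt_rpow_const 0 (1 + α) (Or.inr (by positivity))).tendsto.comp h2
  rw [zero_rpow (by positivity)] at h3
  refine h3.congr' ?_
  filter_upwards [Ioo_mem_nhdsGT one_pos] with t ht
  have t0 := ht.1
  have h4 : 0 ≤ 3 - log t := by linarith [log_nonpos t0.le ht.2.le]
  simp only [Function.comp]
  rw [← sub_mul, mul_rpow h4 (by positivity), mul_rpow t0.le h4, ← rpow_mul t0.le,
    div_mul_cancel₀ _ (by positivity), rpow_add t0, rpow_one]
  field_simp

lemma not_smooth {ρ C α : ℝ} (hρ : 0 < ρ) (hα : 0 < α) {e : ℂ} (he : ‖e‖ = 1) {g : ℝ → ℝ}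
    (hd : ∀ x ∈ Ioo (-ρ) ρ, DifferentiableAt ℝ g x ∧ |deriv g x - deriv g 0| ≤ C * |x| ^ α)
    (hg : ∀ z ∈ ball (0 : ℂ) ρ, z ∈ frontier D ↔ (e * z).im = g (e * z).re) : False := by
  have pp := pi_pos
  have C0 : 0 ≤ C := by
    have h := (abs_nonneg _).trans (hd (ρ / 2) ⟨by linarith, by linarith⟩).2
    exact nonneg_of_mul_nonneg_left h (rpow_pos_of_pos (by positivity) _)
  have g0 : g 0 = 0 := by
    simpa using ((hg 0 (mem_ball_self hρ)).1 ((front (by simp)).2 (by simp [f, T_zero]))).symm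
  set c := deriv g 0
  have tay : ∀ a : ℝ, |a| < ρ → |g a - c * a| ≤ C * |a| ^ (1 + α) := fun a ha => by
    have hs : ∀ x ∈ Icc (-|a|) |a|, x ∈ Ioo (-ρ) ρ := fun x hx =>
      ⟨by linarith [hx.1], by linarith [hx.2]⟩
    have := (convex_Icc (-|a|) |a|).norm_image_sub_le_of_norm_hasDerivWithin_le
      (f := fun x => g x - c * x) (f' := fun x => deriv g x - c * 1) (C := C * |a| ^ α)
      (fun x hx => ((hd x (hs x hx)).1.hasDerivAt.sub
        ((hasDerivAt_id x).const_mul c)).hasDerivWithinAt)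
      (fun x hx => by
        rw [mul_one]
        refine (hd x (hs x hx)).2.trans ?_
        exact mul_le_mul_of_nonneg_left (rpow_le_rpow (abs_nonneg _) (abs_le.2 hx) hα.le) C0) (x := 0) (y := a) (by simp) (abs_le.1 le_rfl)
    rw [rpow_add' (abs_nonneg a) (by positivity), rpow_one]
    simpa [g0, mul_comm, mul_left_comm, mul_assoc] using this
  have key : ∀ t : ℝ, |t| ≤ 1 → 2 * Y |t| < min ρ 2 →
      |(e.im - c * e.re) * (π / 2 * |t|) + (e.re + c * e.im) * (t * (3 - log t))| ≤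
        C * (2 * Y |t|) ^ (1 + α) := fun t ht h => by
    have h1 := Y_slope (abs_nonneg t)
    rw [Y_zero] at h1
    have re : (φ (t * Complex.I)).re = π / 2 * |t| := by rw [φ_I]; simp
    have im : (φ (t * Complex.I)).im = t * (3 - log t) := by
      rw [φ_I, Complex.add_im, Complex.ofReal_im, Complex.im_ofReal_mul]; simp
    have h2 : ‖φ (t * Complex.I)‖ ≤ 2 * Y |t| := by
      refine (Complex.norm_le_abs_re_add_abs_im _).trans ?_
      rw [re, im, abs_Y ht, abs_of_nonneg (by positivity)]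
      nlinarith [pi_le_four, abs_nonneg t]
    have h3 := (hg _ (mem_ball_zero_iff.2 (h2.trans_lt (h.trans_le (min_le_left _ _))))).1
      ((front (h2.trans_lt (h.trans_le (min_le_right _ _)))).2 (by rw [re, im, f_Y ht]))
    have h4 : |(e * φ (t * Complex.I)).re| ≤ 2 * Y |t| :=
      (Complex.abs_re_le_norm _).trans (by rwa [norm_mul, he, one_mul])
    have h5 := tay _ (h4.trans_lt (h.trans_le (min_le_left _ _)))
    rw [← h3] at h5
    refine le_of_eq_of_le ?_ (h5.trans (by gcongr))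
    rw [Complex.mul_im, Complex.mul_re, re, im]
    congr 1; ring
  set a := e.im - c * e.re with ha
  set b := e.re + c * e.im with hb
  have ab : 0 < |a| + |b| := by
    by_contra hn
    have h1 : a = 0 := abs_eq_zero.1 (by linarith [abs_nonneg a, abs_nonneg b])
    have h2 : b = 0 := abs_eq_zero.1 (by linarith [abs_nonneg a, abs_nonneg b])
    have h3 : e.re * (1 + c ^ 2) = 0 := by linear_combination h2 - hb - c * h1 + c * ha
    have h4 : e.re = 0 := (mul_eq_zero.1 h3).resolve_right (by positivity)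
    have h5 : e = 0 := Complex.ext h4 (by simpa [h4, h1] using ha.symm)
    simp [h5] at he
  have t1 := (tend α hα).const_mul (2 * C * 2 ^ (1 + α))
  have t2 : Tendsto (fun t => 2 * Y |t|) (𝓝[>] 0) (𝓝 (2 * Y |0|)) :=
    ((Y_cont.comp continuous_abs).const_mul 2).continuousAt.tendsto.mono_left nhdsWithin_le_nhds
  rw [abs_zero, Y_zero, mul_zero] at t2
  rw [mul_zero] at t1
  obtain ⟨t, h1, h2, t0, h3⟩ := ((t1.eventually (gt_mem_nhds ab)).and
    ((t2.eventually (gt_mem_nhds (lt_min hρ two_pos))).and (Ioo_mem_nhdsGT one_pos))).exists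
  have k1 := key t (by rw [abs_of_pos t0]; exact h3.le) h2
  have k2 := key (-t) (by rw [abs_neg, abs_of_pos t0]; exact h3.le) (by rwa [abs_neg])
  rw [abs_neg, log_neg_eq_log] at k2
  have h4 : log t ≤ 0 := log_nonpos t0.le h3.le
  rw [abs_of_pos t0, Y_of_mem t0.le h3.le, mul_rpow two_pos.le (by nlinarith), ← mul_assoc,
    abs_le] at k1 k2
  rw [← mul_div_assoc, div_lt_iff₀ t0] at h1
  generalize hm : (t * (3 - log t)) ^ (1 + α) = m at *
  have p1 : |a| * t ≤ |a| * (π / 2 * t) := by gcongr; nlinarith [pi_gt_three]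
  have p2 : |b| * t ≤ |b| * (t * (3 - log t)) := by gcongr; nlinarith
  have p3 : |a| * (π / 2 * t) ≤ C * 2 ^ (1 + α) * m := by
    rcases abs_cases a with h | h <;> rw [h.1] <;> linarith [k1.1, k1.2, k2.1, k2.2]
  have p4 : |b| * (t * (3 - log t)) ≤ C * 2 ^ (1 + α) * m := by
    rcases abs_cases b with h | h <;> rw [h.1] <;> linarith [k1.1, k1.2, k2.1, k2.2]
  linarith

end Pool.Agent.H.MP_056161_an
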